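import Pool.Agent.Run7.h955.I

/-!
# Finite quotients of mapping class groups and characteristic quotients of surface groups

Let `π` be the fundamental group of the closed orientable surface `S` of genus `g ≥ 2`, and
`Mod_S = Out (π)`. The congruence subgroup property asks whether every finite quotient of `Mod_S`
factors through the image of `Mod_S` in `Out (π / Γ)` for some characteristic subgroup `Γ` of finite
index of `π`. Here the answer is positive when `Γ` is allowed to be any characteristic subgroup:

* the kernel of every homomorphism from `Mod_S` to a finite group is equal to the kernel `K_Γ` of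
  `Out (π) → Out (π / Γ)` for some characteristic subgroup `Γ` of `π`, so that the homomorphism factors
  through the image of `Mod_S` in `Out (π / Γ)`;
* every subgroup of finite index of `Mod_S` contains some `K_Γ` of finite index;
* so the congruence subgroup property for `S` is equivalent to the following property of the kernels:
  if `Γ` is characteristic and `K_Γ` has finite index in `Mod_S`, then `K_Γ ≥ K_Δ` for some
  characteristic subgroup `Δ` of finite index.

The proof uses the theorem of helper955, `MP_e058c8_al.NormalSubgroupsAreKernels` (library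
`Pool.Agent.Run7.h955`): every normal subgroup of `Mod_S` is some `K_Γ`.
-/

set_option autoImplicit false

open commutatorElement

namespace Pool.Agent.Results.MP_59b15d_al.KernelsOnCharacteristicQuotients

/-- The surface relator, the product of the commutators `[a_i, b_i]` for `i = 0, ..., g - 1` in this
order, where `(i, false)` is the letter `a_i` and `(i, true)` is the letter `b_i`. -/
def surfaceRelator (g : ℕ) : FreeGroup (Fin g × Bool) :=
  (List.ofFn fun i : Fin g => ⁅FreeGroup.of (i, false), FreeGroup.of (i, true)⁆).prod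

/-- The fundamental group of the closed orientable surface of genus `g`, by its standard
presentation. -/
abbrev SurfaceGroup (g : ℕ) : Type :=
  PresentedGroup ({surfaceRelator g} : Set (FreeGroup (Fin g × Bool)))

section

variable (G : Type) [Group G]

/-- The subgroup of inner automorphisms of `G`. -/
def Inn : Subgroup (MulAut G) := (MulAut.conj : G →* MulAut G).range

theorem conj_map (f : MulAut G) (y : G) : f * MulAut.conj y * f⁻¹ = MulAut.conj (f y) := by
  ext z
  simp [MulAut.mul_apply, MulAut.conj_apply]

instance normal_Inn : (Inn G).Normal := by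
  refine ⟨?_⟩
  rintro _ ⟨y, rfl⟩ f
  exact ⟨f y, (conj_map G f y).symm⟩

/-- The outer automorphism group `Aut(G)/Inn(G)`. -/
abbrev Out : Type := MulAut G ⧸ Inn G

end

section

variable {G : Type} [Group G] (Γ : Subgroup G) [hΓ : Γ.Characteristic]

/-- The homomorphism `Aut(G) → Aut(G/Γ)` for a characteristic subgroup `Γ`: an automorphism `f`
goes to the automorphism `x Γ ↦ f(x) Γ`. -/
def autQuot : MulAut G →* MulAut (G ⧸ Γ) where
  toFun f := QuotientGroup.congr Γ Γ f (Subgroup.characteristic_iff_map_eq.mp hΓ f)
  map_one' := by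
    ext x
    induction x using QuotientGroup.induction_on with
    | H x => rfl
  map_mul' f f' := by
    ext x
    induction x using QuotientGroup.induction_on with
    | H x => rfl

theorem autQuot_mk (f : MulAut G) (x : G) : autQuot Γ f (x : G ⧸ Γ) = (f x : G) := rfl

theorem autQuot_conj (y : G) : autQuot Γ (MulAut.conj y) = MulAut.conj (y : G ⧸ Γ) := by
  ext x
  induction x using QuotientGroup.induction_on with
  | H x => rfl

theorem autQuot_inn : Inn G ≤ (Inn (G ⧸ Γ)).comap (autQuot Γ) := by
  rintro _ ⟨y, rfl⟩
  exact ⟨(y : G ⧸ Γ), (autQuot_conj Γ y).symm⟩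

/-- The natural homomorphism `Out(G) → Out(G/Γ)` for a characteristic subgroup `Γ`. -/
def outQuot : Out G →* Out (G ⧸ Γ) :=
  QuotientGroup.map (Inn G) (Inn (G ⧸ Γ)) (autQuot Γ) (autQuot_inn Γ)

theorem autQuot_eq_one_iff (f : MulAut G) : autQuot Γ f = 1 ↔ ∀ z, f z * z⁻¹ ∈ Γ := by
  constructor
  · intro h z
    have h1 : autQuot Γ f (z : G ⧸ Γ) = z := by rw [h]; rfl
    rw [autQuot_mk, QuotientGroup.eq] at h1
    have hn : Γ.Normal := inferInstance
    have h2 := hn.conj_mem _ h1 (f z)
    have e : f z * ((f z)⁻¹ * z) * (f z)⁻¹ = (f z * z⁻¹)⁻¹ := by group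
    rw [e] at h2
    exact (Subgroup.inv_mem_iff _).mp h2
  · intro h
    ext x
    induction x using QuotientGroup.induction_on with
    | H x =>
      rw [autQuot_mk, MulAut.one_apply, QuotientGroup.eq]
      have hn : Γ.Normal := inferInstance
      have h2 := hn.conj_mem _ ((Subgroup.inv_mem_iff _).mpr (h x)) (f x)⁻¹
      have e : (f x)⁻¹ * (f x * x⁻¹)⁻¹ * (f x)⁻¹⁻¹ = (f x)⁻¹ * x := by group
      rw [e] at h2
      exact h2

theorem mem_ker_iff (f : MulAut G) : ((f : Out G) ∈ (outQuot Γ).ker) ↔
    ∃ y : G, autQuot Γ f = MulAut.conj (y : G ⧸ Γ) := by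
  rw [MonoidHom.mem_ker]
  have h : outQuot Γ (f : Out G) = ((autQuot Γ f : MulAut (G ⧸ Γ)) : Out (G ⧸ Γ)) := rfl
  rw [h, QuotientGroup.eq_one_iff]
  constructor
  · rintro ⟨y, hy⟩
    induction y using QuotientGroup.induction_on with
    | H y => exact ⟨y, hy.symm⟩
  · rintro ⟨y, hy⟩
    exact ⟨_, hy.symm⟩

end

theorem eq_ker {G : Type} [Group G] (N : Subgroup (Out G)) (M : Subgroup (MulAut G))
    (hM : M.Normal) (hMN : M ⊔ Inn G = N.comap (QuotientGroup.mk' (Inn G)))
    (hC : ∀ f : MulAut G, (∀ z, MulAut.conj (f z * z⁻¹) ∈ M) → f ∈ M) :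
    ∃ (Γ : Subgroup G) (_ : Γ.Characteristic), N = (outQuot Γ).ker := by
  have hmem : ∀ f : MulAut G, (f : Out G) ∈ N ↔ f ∈ M ⊔ Inn G := by
    intro f
    rw [hMN]
    rfl
  have hchar : (M.comap (MulAut.conj : G →* MulAut G)).Characteristic := by
    refine ⟨fun f => ?_⟩
    ext y
    change MulAut.conj ((f : MulAut G) y) ∈ M ↔ MulAut.conj y ∈ M
    rw [← conj_map G f y]
    constructor
    · intro h
      have h2 := hM.conj_mem _ h ((f : MulAut G)⁻¹)
      have e : ((f : MulAut G)⁻¹) * ((f : MulAut G) * MulAut.conj y * (f : MulAut G)⁻¹) *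
          ((f : MulAut G)⁻¹)⁻¹ = MulAut.conj y := by group
      rw [e] at h2
      exact h2
    · intro h
      exact hM.conj_mem _ h f
  refine ⟨M.comap (MulAut.conj : G →* MulAut G), hchar, ?_⟩
  ext q
  induction q using QuotientGroup.induction_on with
  | H f =>
    rw [mem_ker_iff, hmem]
    constructor
    · intro h
      obtain ⟨m, hm, c, hc, rfl⟩ := (Subgroup.mem_sup_of_normal_right).mp h
      obtain ⟨y, rfl⟩ := hc
      refine ⟨y, ?_⟩
      have h1 : autQuot (M.comap (MulAut.conj : G →* MulAut G)) m = 1 := by
        rw [autQuot_eq_one_iff]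
        intro z
        rw [Subgroup.mem_comap, map_mul, map_inv, ← conj_map G m z]
        have e : m * MulAut.conj z * m⁻¹ * (MulAut.conj z)⁻¹ =
            m * (MulAut.conj z * m⁻¹ * (MulAut.conj z)⁻¹) := by group
        rw [e]
        exact M.mul_mem hm (hM.conj_mem _ (M.inv_mem hm) _)
      rw [map_mul, h1, one_mul, autQuot_conj]
    · rintro ⟨y, hy⟩
      have h1 : autQuot (M.comap (MulAut.conj : G →* MulAut G)) (f * (MulAut.conj y)⁻¹) = 1 := by
        rw [map_mul, map_inv, hy, autQuot_conj, mul_inv_cancel]
      have h2 : f * (MulAut.conj y)⁻¹ ∈ M := by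
        apply hC
        intro z
        exact (autQuot_eq_one_iff _ _).mp h1 z
      have e : f = f * (MulAut.conj y)⁻¹ * MulAut.conj y := by group
      rw [e]
      exact (M ⊔ Inn G).mul_mem (Subgroup.mem_sup_left h2) (Subgroup.mem_sup_right ⟨y, rfl⟩)

/-- Every normal subgroup of `Mod_S = Out (π)` is the kernel of `Out (π) → Out (π / Γ)` for some
characteristic subgroup `Γ` of `π` (helper955). -/
theorem normal_eq_ker (g : ℕ) (hg : 2 ≤ g) (N : Subgroup (Out (SurfaceGroup g))) (hN : N.Normal) :
    ∃ (Γ : Subgroup (SurfaceGroup g)) (_ : Γ.Characteristic), N = (outQuot Γ).ker := by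
  obtain ⟨n, rfl⟩ : ∃ n, g = n + 2 := ⟨g - 2, by omega⟩
  have hle : Inn (SurfaceGroup (n + 2)) ≤ N.comap (QuotientGroup.mk' (Inn (SurfaceGroup (n + 2)))) := by
    intro f hf
    have h1 : (QuotientGroup.mk' (Inn (SurfaceGroup (n + 2)))) f = 1 :=
      (QuotientGroup.eq_one_iff _).mpr hf
    rw [Subgroup.mem_comap, h1]
    exact N.one_mem
  obtain ⟨M, hM, h1, h2⟩ := Run7.h955.main_SG n
    (N.comap (QuotientGroup.mk' (Inn (SurfaceGroup (n + 2))))) (hN.comap _) hle
  exact eq_ker N M hM h1 h2

/-- The congruence subgroup property of `Mod_S`, `S` of genus `g`: every subgroup of finite index of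
`Out (π)` contains the kernel of `Out (π) → Out (π / Γ)` for a characteristic subgroup `Γ` of finite
index of `π`. -/
def CongruenceSubgroupProperty (g : ℕ) : Prop :=
  ∀ H : Subgroup (Out (SurfaceGroup g)), H.FiniteIndex →
    ∃ (Γ : Subgroup (SurfaceGroup g)) (_ : Γ.Characteristic), Γ.FiniteIndex ∧ (outQuot Γ).ker ≤ H

/-- Every subgroup of finite index of `Out (G)` contains the kernel of `Out (G) → Out (G / Γ)`, and
this kernel has finite index, for some characteristic `Γ`. -/
def ContainKernels (G : Type) [Group G] : Prop :=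
  ∀ H : Subgroup (Out G), H.FiniteIndex → ∃ (Γ : Subgroup G) (_ : Γ.Characteristic),
    (outQuot Γ).ker.FiniteIndex ∧ (outQuot Γ).ker ≤ H

/-- Every normal subgroup of finite index of `Out (G)` is equal to the kernel of
`Out (G) → Out (G / Γ)` for some characteristic `Γ`. -/
def AreKernels (G : Type) [Group G] : Prop :=
  ∀ H : Subgroup (Out G), H.Normal → H.FiniteIndex →
    ∃ (Γ : Subgroup G) (_ : Γ.Characteristic), H = (outQuot Γ).ker

/-- If the kernel of `Out (G) → Out (G / Γ)` has finite index in `Out (G)`, `Γ` characteristic, then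
it contains the kernel of `Out (G) → Out (G / Δ)` for a characteristic `Δ` of finite index. -/
def KernelsContainCongruence (G : Type) [Group G] : Prop :=
  ∀ (Γ : Subgroup G) [Γ.Characteristic], (outQuot Γ).ker.FiniteIndex →
    ∃ (Δ : Subgroup G) (_ : Δ.Characteristic), Δ.FiniteIndex ∧ (outQuot Δ).ker ≤ (outQuot Γ).ker

/-- Let `π` be the fundamental group of the closed orientable surface of genus `g ≥ 2`.

(1) Every normal subgroup of finite index of `Out (π)` (the kernel of any homomorphism to a finite
group) is equal to the kernel of `Out (π) → Out (π / Γ)` for some characteristic subgroup `Γ` of `π`.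

(2) Every subgroup of finite index of `Out (π)` contains the kernel of `Out (π) → Out (π / Γ)`, and
this kernel has finite index, for some characteristic subgroup `Γ` of `π`.

(3) The congruence subgroup property of `Mod_S` is equivalent to: for every characteristic subgroup
`Γ` of `π`, for which the kernel of `Out (π) → Out (π / Γ)` has finite index in `Out (π)`, this kernel
contains the kernel of `Out (π) → Out (π / Δ)` for a characteristic subgroup `Δ` of finite index. -/
theorem result (g : ℕ) (hg : 2 ≤ g) :
    AreKernels (SurfaceGroup g) ∧ ContainKernels (SurfaceGroup g) ∧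
    (CongruenceSubgroupProperty g ↔ KernelsContainCongruence (SurfaceGroup g)) := by
  have key : ContainKernels (SurfaceGroup g) := by
    intro H hH
    obtain ⟨Γ, hΓ, h⟩ := normal_eq_ker g hg H.normalCore inferInstance
    refine ⟨Γ, hΓ, ?_, ?_⟩
    · rw [← h]
      infer_instance
    · rw [← h]
      exact H.normalCore_le
  refine ⟨fun H hH _ => normal_eq_ker g hg H hH, key, ?_, ?_⟩
  · intro h Γ _ hΓ
    exact h _ hΓ
  · intro h H hH
    obtain ⟨Γ, hΓ, h1, h2⟩ := key H hH
    obtain ⟨Δ, hΔ, h3, h4⟩ := h Γ h1
    exact ⟨Δ, hΔ, h3, h4.trans h2⟩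

end Pool.Agent.Results.MP_59b15d_al.KernelsOnCharacteristicQuotients
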