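import Pool.Agent.Run7.h78.RK.Rigid

/-!
# Kernels which act on trees with commensurable rigid stabilizers

`C` is any class of groups with the closure properties `ClosedE C` which contains the metabelian and
the free-by-cyclic groups. All this is known for the class of the groups that satisfy the Farrell-Jones
conjecture with coefficients and finite wreath products.

Let `N` be a normal subgroup of `G` with `G / N` in `C`. Only `N` acts on a tree; the stabilizers of
adjacent vertices are commensurable and have no nontrivial finite normal subgroups. Let `H` be the
stabilizer of a vertex, and suppose that the abstract commensurator of `H` is in `C`. If `G`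
commensurates `H`, or if `N` acts without inversions and some subgroup of `N` with Serre's property FA
contains a subgroup of finite index of `H`, then `G` is in `C`.

Outline of the proof. In the second case the conjugate `g H₀ g⁻¹` of the subgroup `H₀` with FA is in
`N` and fixes a vertex, for every `g` in `G`; so a subgroup of finite index of `g H g⁻¹` is in a group
commensurable with `H`, and `G` commensurates `H`. Hence `G` has a homomorphism to the abstract
commensurator of `H`, and the elements of its kernel centralize subgroups of finite index of `H`. By
the theorem of helper1 on kernels (used in MP_e40716_gt, CommensurableKernels) the part of this kernel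
in `N` is free by abelian, and `G` is in `C`.
-/

set_option autoImplicit false

namespace Pool.Agent.Results.MP_6374fb_al.RigidStabilizers

open Pool.Agent.Y110.FJ (ClosedE)
open Pool.Agent.R684.FP (FbC)
open Pool.Agent.N24.CM (Comm)
open Pool.Agent.Run7.h78.RK

theorem result (C : ∀ (G : Type) [Group G], Prop) (hC : ClosedE C)
    (hM : ∀ (G : Type) [Group G], derivedSeries G 2 = ⊥ → C G) (hF : FbC C)
    {G : Type} [Group G] (N : Subgroup G) [N.Normal] (hQ : C (G ⧸ N))
    {V : Type} [MulAction N V] (T : SimpleGraph V) (hT : T.IsTree)
    (hact : ∀ (g : N) (x y : V), T.Adj x y → T.Adj (g • x) (g • y))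
    (hfin : ∀ x y : V, T.Adj x y →
      (MulAction.stabilizer N x).relIndex (MulAction.stabilizer N y) ≠ 0)
    (hfn : ∀ (x : V) (F : Subgroup (MulAction.stabilizer N x)), F.Normal → Finite F → F = ⊥)
    (o : V) (H : Subgroup G) (hH : H = (MulAction.stabilizer N o).map N.subtype)
    (hcomm : C (Comm H))
    (h : (∀ g : G, H.relIndex (H.map (MulAut.conj g).toMonoidHom) ≠ 0) ∨
      ((∀ (g : N) (x y : V), T.Adj x y → g • x = y → g • y ≠ x) ∧
        ∃ H₀ : Subgroup N, FA H₀ ∧ H₀.relIndex (MulAction.stabilizer N o) ≠ 0)) : C G := by
  subst hH
  rcases h with h | ⟨hinv, H₀, hFA, hi⟩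
  · exact main hC hM hF N hQ T hT hact hfin hfn o hcomm h
  · exact main hC hM hF N hQ T hT hact hfin hfn o hcomm
      (commensurated N T hT hact hinv hfin o H₀ hi hFA)

end Pool.Agent.Results.MP_6374fb_al.RigidStabilizers
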