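import Pool.Agent.Run7.h78.VB.Free

/-!
# Verbal quotients of groups acting on trees

`C` is any class of groups with the closure properties `ClosedE C`, all of which are known for the
class of the groups that satisfy the Farrell-Jones conjecture with coefficients in additive categories
and finite wreath products. `W` is a set of words such that the relatively free groups
`F_n / W(F_n)` of finite rank are in `C`.

Let `G` act on a tree, and let `R` be a normal subgroup of `G` which acts freely. If `G / R` is in `C`
then so is `G / W(R)`. The same holds for all normal subgroups `R` of a free group `G`.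

Outline of the proof. The paths of the tree give a homomorphism of `G` to the semidirect product of
the free group on the set `E` of the orbits of `R` on the oriented edges and of `G / R`, and `R` is
mapped onto a retract of the free group, up to conjugation. Hence `G / W(R)` embeds in the semidirect
product of the relatively free group on `E` and of `G / R`, which permutes the basis `E`; these groups
are in `C` by the realization criterion, because a permutation agrees on every finite set with a
permutation of finite order.
-/

set_option autoImplicit false

namespace Pool.Agent.Results.MP_5d3e93_al.VerbalQuotients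

open Pool.Agent.Y110.FJ Pool.Agent.Run7.h78.VB

theorem result (C : ∀ (G : Type) [Group G], Prop) (hC : ClosedE C) (W : Set (FreeGroup ℕ))
    (hW : ∀ n : ℕ, C (FreeGroup (Fin n) ⧸ verbal W (FreeGroup (Fin n)))) :
    (∀ (G V : Type) [Group G] [MulAction G V] (T : SimpleGraph V), T.IsTree →
      (∀ (g : G) (u v : V), T.Adj u v → T.Adj (g • u) (g • v)) →
      ∀ (R : Subgroup G) [R.Normal], C (G ⧸ R) →
      (∀ r ∈ R, ∀ v : V, r • v = v → r = 1) →
      (∀ r ∈ R, ∀ u v : V, T.Adj u v → r • u = v → r • v ≠ u) →
      C (G ⧸ (verbal W R).map R.subtype)) ∧
    (∀ (X : Type) (R : Subgroup (FreeGroup X)) [R.Normal], C (FreeGroup X ⧸ R) →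
      C (FreeGroup X ⧸ (verbal W R).map R.subtype)) :=
  ⟨fun _ _ _ _ _ hT hact R _ hQ hfree hinv => main W hC hT hact R hQ hfree hinv hW,
    fun X R _ hQ => free_main W hC hW X R hQ⟩

end Pool.Agent.Results.MP_5d3e93_al.VerbalQuotients
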